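import Pool.Agent.H13.TR2.Hop
import Pool.Agent.H46.PR.Tie

/-!
# Two radii: the algebra, and the splitting of the lines

`alg3`: two hops with the displacements `(a₁, d₁)`, `(a₂, d₂)`, `|a₁| ≤ 2 ^ (-q₂)`,
`|a₂| ≤ 2 ^ (-q₁)`: if the freedom is small at three scales, then `d₁` or `d₂` is small.

`P3_split`: if the first hop is `E` and the second hop is `F` for few pairs of hops, then the lines
have a part where the second hops are rarely `F`, and on the rest the first hops are rarely `E`.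
-/

set_option autoImplicit false

namespace Pool.TR13

open Finset Real
open Pool.Agent.H49.Ent Pool.Agent.H32.Dense Pool.STK Pool.OWN68 Pool.PR46
open Pool.BFL (Pb)

/-- What a small freedom says. -/
theorem frq_lt {x₁ x₂ y₁ y₂ V : ℝ} (h : frq x₁ x₂ y₁ y₂ < V) :
    |x₁ * y₂ - x₂ * y₁| < V * max 1 (max |x₁| |x₂|) ∧ |y₁| < V * max 1 (max |x₁| |x₂|) ∧
      |y₂| < V * max 1 (max |x₁| |x₂|) := by
  have hm : 0 < max 1 (max |x₁| |x₂|) := zero_lt_one.trans_le (le_max_left _ _)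
  have g : frd x₁ x₂ y₁ y₂ < V * max 1 (max |x₁| |x₂|) := by
    unfold frq at h
    rwa [div_lt_iff₀ hm] at h
  unfold frd at g
  exact ⟨(le_max_left _ _).trans_lt g, ((le_max_left _ _).trans (le_max_right _ _)).trans_lt g,
    ((le_max_right _ _).trans (le_max_right _ _)).trans_lt g⟩

theorem abs_two_mul (x y : ℝ) : |(2 : ℝ) ^ x * y| = 2 ^ x * |y| := by
  rw [abs_mul, abs_of_pos (Real.rpow_pos_of_pos (by norm_num) x)]

/-- **Three scales.** -/
theorem alg3 {a₁ a₂ d₁ d₂ q₁ q₂ X θ V : ℝ} (hV : 1 ≤ V) (hX : 0 ≤ X)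
    (hκ : (1 + θ) * X ≤ (1 - θ) * (q₂ - q₁)) (hq : q₁ + X ≤ q₂)
    (h1 : |a₁| ≤ 2 ^ (-q₂)) (h2 : |a₂| ≤ 2 ^ (-q₁))
    (f1 : frq (2 ^ q₁ * a₁) (2 ^ q₁ * a₂) (2 ^ (θ * q₁) * d₁) (2 ^ (θ * q₁) * d₂) < V)
    (f2 : frq (2 ^ (q₁ + X) * a₁) (2 ^ (q₁ + X) * a₂) (2 ^ (θ * (q₁ + X)) * d₁)
      (2 ^ (θ * (q₁ + X)) * d₂) < V)
    (f3 : frq (2 ^ (q₂ + X) * a₁) (2 ^ (q₂ + X) * a₂) (2 ^ (θ * (q₂ + X)) * d₁)
      (2 ^ (θ * (q₂ + X)) * d₂) < V)
    (hd : 2 * V ≤ 2 ^ (θ * (q₁ + X)) * |d₂|) : 2 ^ (θ * (q₂ + X)) * |d₁| < 2 * V := by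
  have hV0 : 0 < V := by linarith
  have P : ∀ x : ℝ, (0 : ℝ) < 2 ^ x := fun x => Real.rpow_pos_of_pos (by norm_num) x
  have mono : ∀ {x y : ℝ}, x ≤ y → (2 : ℝ) ^ x ≤ 2 ^ y := fun h =>
    Real.rpow_le_rpow_of_exponent_le (by norm_num) h
  have one : ∀ {x : ℝ}, x ≤ 0 → (2 : ℝ) ^ x ≤ 1 := fun h => by
    have := mono h
    rwa [Real.rpow_zero] at this
  have mula : ∀ {x y a : ℝ}, |a| ≤ 2 ^ (-y) → |(2 : ℝ) ^ x * a| ≤ 2 ^ (x - y) := fun {x y a} h => by
    rw [abs_two_mul, sub_eq_add_neg, Real.rpow_add (by norm_num)]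
    exact mul_le_mul_of_nonneg_left h (P x).le
  obtain ⟨-, -, f1c⟩ := frq_lt f1
  obtain ⟨-, -, f2c⟩ := frq_lt f2
  obtain ⟨f3a, -, -⟩ := frq_lt f3
  rw [abs_two_mul] at f1c f2c
  -- the first scale
  have m1 : max 1 (max |(2 : ℝ) ^ q₁ * a₁| |(2 : ℝ) ^ q₁ * a₂|) = 1 := by
    refine max_eq_left (max_le ?_ ?_)
    · exact (mula h1).trans (one (by linarith))
    · exact (mula h2).trans (one (by linarith))
  rw [m1, mul_one] at f1c
  -- the second scale
  have b2 : 1 < |(2 : ℝ) ^ (q₁ + X) * a₂| ∧ 2 < |(2 : ℝ) ^ (q₁ + X) * a₂| := by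
    have b1 : |(2 : ℝ) ^ (q₁ + X) * a₁| ≤ 1 := (mula h1).trans (one (by linarith))
    have g : 2 < max 1 (max |(2 : ℝ) ^ (q₁ + X) * a₁| |(2 : ℝ) ^ (q₁ + X) * a₂|) := by
      by_contra hcon
      push Not at hcon
      have := mul_le_mul_of_nonneg_left hcon hV0.le
      linarith
    have g2 : 2 < |(2 : ℝ) ^ (q₁ + X) * a₂| := by
      by_contra hcon
      push Not at hcon
      have : max 1 (max |(2 : ℝ) ^ (q₁ + X) * a₁| |(2 : ℝ) ^ (q₁ + X) * a₂|) ≤ 2 :=
        max_le (by norm_num) (max_le (b1.trans (by norm_num)) hcon)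
      linarith
    exact ⟨by linarith, g2⟩
  have ha2 : (2 : ℝ) ^ (-(q₁ + X)) * 2 ≤ |a₂| := by
    have := b2.2
    rw [abs_two_mul] at this
    rw [Real.rpow_neg (by norm_num), ← div_eq_inv_mul, div_le_iff₀ (P _)]
    linarith
  -- the third scale
  have hx1 : |(2 : ℝ) ^ (q₂ + X) * a₁| ≤ 2 ^ X := by
    have := mula (x := q₂ + X) h1
    rwa [add_sub_cancel_left] at this
  have hx2 : 2 * (2 : ℝ) ^ (q₂ - q₁) ≤ |(2 : ℝ) ^ (q₂ + X) * a₂| := by
    rw [abs_two_mul]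
    have := mul_le_mul_of_nonneg_left ha2 (P (q₂ + X)).le
    have e : (2 : ℝ) ^ (q₂ + X) * (2 ^ (-(q₁ + X)) * 2) = 2 * 2 ^ (q₂ - q₁) := by
      rw [← mul_assoc, ← Real.rpow_add (by norm_num)]
      have : q₂ + X + -(q₁ + X) = q₂ - q₁ := by ring
      rw [this]
      ring
    rwa [e] at this
  have hκ2 : (2 : ℝ) ^ X ≤ 2 ^ (q₂ - q₁) := mono (by linarith)
  have h1κ : (1 : ℝ) ≤ 2 ^ (q₂ - q₁) := by
    have := mono (x := 0) (y := q₂ - q₁) (by linarith)
    rwa [Real.rpow_zero] at this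
  have hXk := P X
  have m3 : max 1 (max |(2 : ℝ) ^ (q₂ + X) * a₁| |(2 : ℝ) ^ (q₂ + X) * a₂|) =
      |(2 : ℝ) ^ (q₂ + X) * a₂| := by
    have g1 : |(2 : ℝ) ^ (q₂ + X) * a₁| ≤ |(2 : ℝ) ^ (q₂ + X) * a₂| := by linarith
    rw [max_eq_right g1]
    exact max_eq_right (by linarith)
  rw [m3] at f3a
  obtain ⟨x₁, hx₁⟩ : ∃ x, x = (2 : ℝ) ^ (q₂ + X) * a₁ := ⟨_, rfl⟩
  obtain ⟨x₂, hx₂⟩ : ∃ x, x = (2 : ℝ) ^ (q₂ + X) * a₂ := ⟨_, rfl⟩
  obtain ⟨y₁, hy₁⟩ : ∃ x, x = (2 : ℝ) ^ (θ * (q₂ + X)) * d₁ := ⟨_, rfl⟩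
  obtain ⟨y₂, hy₂⟩ : ∃ x, x = (2 : ℝ) ^ (θ * (q₂ + X)) * d₂ := ⟨_, rfl⟩
  rw [← hx₁, ← hx₂, ← hy₁, ← hy₂] at f3a
  rw [← hx₁] at hx1
  rw [← hx₂] at hx2
  have hx20 : 0 < |x₂| := by linarith
  have g1 : |x₂| * |y₁| < V * |x₂| + |x₁| * |y₂| := by
    have e : x₂ * y₁ = x₁ * y₂ - (x₁ * y₂ - x₂ * y₁) := by ring
    have := abs_sub (x₁ * y₂) (x₁ * y₂ - x₂ * y₁)
    rw [← e, abs_mul, abs_mul] at this
    linarith
  -- the size of the second displacement
  have hy2 : |y₂| < V * 2 ^ (θ * (q₂ + X) - θ * q₁) := by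
    have e : y₂ = 2 ^ (θ * (q₂ + X) - θ * q₁) * (2 ^ (θ * q₁) * d₂) := by
      rw [hy₂, ← mul_assoc, ← Real.rpow_add (by norm_num)]
      congr 2
      ring
    rw [e, abs_two_mul, abs_two_mul, mul_comm V]
    exact mul_lt_mul_of_pos_left f1c (P _)
  have g2 : |x₁| * |y₂| ≤ 2 ^ X * (V * 2 ^ (θ * (q₂ + X) - θ * q₁)) :=
    mul_le_mul hx1 hy2.le (abs_nonneg _) hXk.le
  have g3 : (2 : ℝ) ^ X * (V * 2 ^ (θ * (q₂ + X) - θ * q₁)) ≤ V * 2 ^ (q₂ - q₁) := by
    have e : (2 : ℝ) ^ X * (V * 2 ^ (θ * (q₂ + X) - θ * q₁)) =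
        V * 2 ^ (X + (θ * (q₂ + X) - θ * q₁)) := by
      rw [Real.rpow_add (by norm_num) X]
      ring
    rw [e]
    exact mul_le_mul_of_nonneg_left (mono (by nlinarith)) hV0.le
  have g4 : V * 2 ^ (q₂ - q₁) ≤ V * |x₂| := mul_le_mul_of_nonneg_left (by linarith) hV0.le
  have g5 : |x₂| * |y₁| < |x₂| * (2 * V) := by linarith
  have g6 := lt_of_mul_lt_mul_left g5 hx20.le
  rw [hy₁, abs_two_mul] at g6
  exact g6

/-- **Splitting.** -/
theorem glue_split {A B T : Type} [Fintype A] [Fintype B] {q : A → ℝ} {r : B → ℝ} (hq : IsLaw q)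
    (hr : IsLaw r) {X : A → T} {Y : B → T} (E : A → Prop) (F : B → Prop) {s : ℝ} (hs : 0 < s)
    (hb : Pb (glue q r X Y) (fun w => E w.1 ∧ F w.2) ≤ s ^ 2) :
    ∃ S : T → Prop, Pb q (fun a => S (X a) ∧ E a) ≤ s ∧ Pb r (fun b => ¬ S (Y b) ∧ F b) ≤ s := by
  classical
  have hq0 := hq.nonneg
  have hr0 := hr.nonneg
  obtain ⟨g, hg⟩ : ∃ g : T → ℝ, ∀ z, g z = ∑ a, if X a = z ∧ E a then q a else 0 :=
    ⟨_, fun _ => rfl⟩
  obtain ⟨f, hf⟩ : ∃ f : T → ℝ, ∀ z, f z = ∑ b, if Y b = z ∧ F b then r b else 0 :=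
    ⟨_, fun _ => rfl⟩
  have hg0 : ∀ z, 0 ≤ g z := fun z => by
    rw [hg]
    exact Finset.sum_nonneg fun a _ => by split_ifs; exacts [hq0 a, le_rfl]
  have hf0 : ∀ z, 0 ≤ f z := fun z => by
    rw [hf]
    exact Finset.sum_nonneg fun a _ => by split_ifs; exacts [hr0 a, le_rfl]
  have hgl : ∀ z, g z ≤ law q X z := fun z => by
    rw [hg]
    unfold law
    refine Finset.sum_le_sum fun a _ => ?_
    by_cases h1 : X a = z
    · rw [if_pos h1]
      split_ifs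
      exacts [le_rfl, hq0 a]
    · rw [if_neg h1, if_neg (fun h => h1 h.1)]
  obtain ⟨U, hU⟩ : ∃ U : Finset T, U = Finset.univ.image X ∪ Finset.univ.image Y := ⟨_, rfl⟩
  have hUX : ∀ a ∈ (Finset.univ : Finset A), X a ∈ U := fun a _ => by
    rw [hU]
    exact Finset.mem_union_left _ (Finset.mem_image_of_mem _ (Finset.mem_univ _))
  have hUY : ∀ b ∈ (Finset.univ : Finset B), Y b ∈ U := fun b _ => by
    rw [hU]
    exact Finset.mem_union_right _ (Finset.mem_image_of_mem _ (Finset.mem_univ _))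
  -- the joint event
  have key : Pb (glue q r X Y) (fun w => E w.1 ∧ F w.2) = ∑ z ∈ U, g z * f z / law q X z := by
    rw [← Pb_sum, Fintype.sum_prod_type, ← Finset.sum_fiberwise_of_maps_to hUX]
    refine Finset.sum_congr rfl fun z _ => ?_
    rw [Finset.sum_filter, hg, Finset.sum_mul, Finset.sum_div]
    refine Finset.sum_congr rfl fun a _ => ?_
    by_cases h1 : X a = z
    · rw [if_pos h1]
      by_cases h2 : E a
      · rw [if_pos ⟨h1, h2⟩, hf, Finset.mul_sum, Finset.sum_div]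
        refine Finset.sum_congr rfl fun b _ => ?_
        by_cases h3 : F b
        · by_cases h4 : Y b = z
          · rw [if_pos (show E a ∧ F b from ⟨h2, h3⟩), if_pos ⟨h4, h3⟩]
            unfold glue
            dsimp only
            rw [if_pos (h1.trans h4.symm), h1]
          · rw [if_pos (show E a ∧ F b from ⟨h2, h3⟩), if_neg (fun h => h4 h.1)]
            unfold glue
            dsimp only
            rw [if_neg (fun h => h4 (h.symm.trans h1))]
            simp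
        · rw [if_neg (show ¬ (E a ∧ F b) from fun h => h3 h.2), if_neg (fun h => h3 h.2)]
          simp
      · rw [if_neg (fun h => h2 h.2)]
        simp only [zero_mul, zero_div]
        exact Finset.sum_eq_zero fun b _ => if_neg (show ¬ (E a ∧ F b) from fun h => h2 h.1)
    · rw [if_neg h1, if_neg (fun h => h1 h.1)]
      simp
  rw [key] at hb
  obtain ⟨S, hS⟩ : ∃ S : T → Prop, ∀ z, S z ↔ s * law q X z ≤ f z := ⟨_, fun _ => Iff.rfl⟩
  refine ⟨S, ?_, ?_⟩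
  · have e1 : Pb q (fun a => S (X a) ∧ E a) = ∑ z ∈ U, if S z then g z else 0 := by
      rw [← Pb_sum, ← Finset.sum_fiberwise_of_maps_to hUX]
      refine Finset.sum_congr rfl fun z _ => ?_
      rw [Finset.sum_filter]
      by_cases h3 : S z
      · rw [if_pos h3, hg]
        refine Finset.sum_congr rfl fun a _ => ?_
        by_cases h1 : X a = z
        · rw [if_pos h1]
          by_cases h2 : E a
          · rw [if_pos (show S (X a) ∧ E a from ⟨by rw [h1]; exact h3, h2⟩), if_pos ⟨h1, h2⟩]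
          · rw [if_neg (show ¬ (S (X a) ∧ E a) from fun h => h2 h.2), if_neg (fun h => h2 h.2)]
        · rw [if_neg h1, if_neg (fun h => h1 h.1)]
      · rw [if_neg h3]
        refine Finset.sum_eq_zero fun a _ => ?_
        by_cases h1 : X a = z
        · rw [if_pos h1, if_neg (show ¬ (S (X a) ∧ E a) from fun h => h3 (by
            rw [← h1]
            exact h.1))]
        · rw [if_neg h1]
    have e2 : s * ∑ z ∈ U, (if S z then g z else 0) ≤ ∑ z ∈ U, g z * f z / law q X z := by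
      rw [Finset.mul_sum]
      refine Finset.sum_le_sum fun z _ => ?_
      have hl := law_nonneg hq0 X z
      have hnn : 0 ≤ g z * f z / law q X z := div_nonneg (mul_nonneg (hg0 z) (hf0 z)) hl
      by_cases h3 : S z
      · rw [if_pos h3]
        rcases hl.eq_or_lt with h4 | h4
        · have : g z = 0 := le_antisymm (by
            have := hgl z
            rwa [← h4] at this) (hg0 z)
          rw [this]
          simp
        · rw [le_div_iff₀ h4]
          have h5 := (hS z).mp h3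
          have h6 := mul_le_mul_of_nonneg_left h5 (hg0 z)
          calc s * g z * law q X z = g z * (s * law q X z) := by ring
            _ ≤ g z * f z := h6
      · rw [if_neg h3, mul_zero]
        exact hnn
    rw [e1]
    have e3 := e2.trans hb
    rw [sq] at e3
    exact le_of_mul_le_mul_left e3 hs
  · have e1 : Pb r (fun b => ¬ S (Y b) ∧ F b) = ∑ z ∈ U, if S z then 0 else f z := by
      rw [← Pb_sum, ← Finset.sum_fiberwise_of_maps_to hUY]
      refine Finset.sum_congr rfl fun z _ => ?_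
      rw [Finset.sum_filter]
      by_cases h3 : S z
      · rw [if_pos h3]
        refine Finset.sum_eq_zero fun a _ => ?_
        by_cases h1 : Y a = z
        · rw [if_pos h1, if_neg (show ¬ (¬ S (Y a) ∧ F a) from fun h => h.1 (by
            rw [h1]
            exact h3))]
        · rw [if_neg h1]
      · rw [if_neg h3, hf]
        refine Finset.sum_congr rfl fun a _ => ?_
        by_cases h1 : Y a = z
        · rw [if_pos h1]
          by_cases h2 : F a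
          · rw [if_pos (show ¬ S (Y a) ∧ F a from ⟨by rw [h1]; exact h3, h2⟩), if_pos ⟨h1, h2⟩]
          · rw [if_neg (show ¬ (¬ S (Y a) ∧ F a) from fun h => h2 h.2), if_neg (fun h => h2 h.2)]
        · rw [if_neg h1, if_neg (fun h => h1 h.1)]
    rw [e1]
    have e2 : ∑ z ∈ U, (if S z then 0 else f z) ≤ ∑ z ∈ U, s * law q X z := by
      refine Finset.sum_le_sum fun z _ => ?_
      by_cases h3 : S z
      · rw [if_pos h3]
        exact mul_nonneg hs.le (law_nonneg hq0 X z)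
      · rw [if_neg h3]
        rw [hS] at h3
        exact (not_le.mp h3).le
    refine e2.trans ?_
    rw [← Finset.mul_sum]
    have e3 : ∑ z ∈ U, law q X z = 1 := by
      rw [← hq.sum_one, ← Finset.sum_fiberwise_of_maps_to hUX]
      refine Finset.sum_congr rfl fun z _ => ?_
      rw [Finset.sum_filter]
      rfl
    rw [e3, mul_one]

section laws

variable {Ω Λ Γ₁ Γ₂ : Type} [Fintype Ω] {p : Ω → ℝ} (hp : IsLaw p) (L : Ω → Λ) (G₁ : Ω → Γ₁)
  (G₂ : Ω → Γ₂)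

include hp

/-- The law of two hops is a glueing of the two hops over the line `L1`. -/
theorem P3_eq (w : (Ω × Ω) × (Ω × Ω)) : P3 p L G₁ G₂ ((w.1, w.2.1), w.2.2) =
    glue (P1 p G₁) (P1 p G₂) (fun w => L w.2) (fun w => L w.1) w := by
  classical
  have e1 : ∀ z, law (P2 p L G₁) (fun w => G₂ w.2) z = law p G₂ z := P3_z hp L G₁ G₂
  unfold P3
  unfold glue
  dsimp only
  rw [e1]
  unfold P2
  unfold glue
  try dsimp only
  by_cases h1 : L w.1.2 = L w.2.1
  · by_cases h2 : G₂ w.2.1 = G₂ w.2.2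
    · rw [if_pos h2, if_pos h1, if_pos h1]
      unfold P1
      unfold glue
      try dsimp only
      rw [if_pos h2]
      ring
    · rw [if_neg h2, if_pos h1]
      have : P1 p G₂ w.2 = 0 := by
        unfold P1
        unfold glue
        exact if_neg h2
      rw [this]
      simp
  · rw [if_neg h1, if_neg h1]
    simp

/-- **The lines split.** -/
theorem P3_split (E F : Ω × Ω → Prop) {s : ℝ} (hs : 0 < s)
    (hb : Pb (P3 p L G₁ G₂) (fun w => E w.1.1 ∧ F (w.1.2, w.2)) ≤ s ^ 2) :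
    ∃ S : Λ → Prop, Pb (P1 p G₁) (fun w => S (L w.2) ∧ E w) ≤ s ∧
      Pb (P1 p G₂) (fun w => ¬ S (L w.1) ∧ F w) ≤ s := by
  classical
  refine glue_split (P1_law hp G₁) (P1_law hp G₂) E F hs (le_trans (le_of_eq ?_) hb)
  rw [← Pb_sum, ← Pb_sum]
  refine Fintype.sum_equiv (Equiv.prodAssoc (Ω × Ω) Ω Ω).symm _ _ fun w => ?_
  rw [← P3_eq hp L G₁ G₂ w]
  rfl

/-- **Centers.** -/
theorem center (x : Ω → ℝ) (B : Ω → Prop) {W s : ℝ}
    (hb : Pb (P1 p G₁) (fun w => B w.2 ∧ W ≤ |x w.2 - x w.1|) ≤ s) :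
    ∃ c : Γ₁ → ℝ, Pb p (fun ω => B ω ∧ W ≤ |x ω - c (G₁ ω)|) ≤ s := by
  obtain ⟨sel, -, h2⟩ := glue_select hp hp (X := G₁) (Y := G₁) (fun _ => rfl)
    (fun a b => B a ∧ W ≤ |x a - x b|)
  refine ⟨fun z => x (sel z), h2.trans (le_trans (le_of_eq ?_) hb)⟩
  exact Pb_sym G₁ (fun w => B w.1 ∧ W ≤ |x w.1 - x w.2|)

end laws

end Pool.TR13
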