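import Pool.Agent.H46.PR.Eps

/-!
# Two hops: the constants, general displacements

`frq_eps`: `Pool.PR46.two_hops` with the constants chosen: if the height `n` is nonfull given the
height `u` on all events of mass at least `c₀`, up to `δ Q`, then the freedom of `n` given `u` is at
most `2 ^ (ε Q)` for typical pairs of hops. The two records may be different, and the coefficients of
the two times may be any functions of `(τ, D (L2), D (L1), L0)`.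
-/

set_option autoImplicit false

namespace Pool.TR13

open Finset Real
open Pool.Agent.H49.Ent Pool.Agent.H32.Dense Pool.STK Pool.OWN68 Pool.PR46
open Pool.BFL (Pb)

/-- The displacement of two hops. -/
def Dis {Ω Λ Γ₁ Γ₂ 𝒟 : Type} (p : Ω → ℝ) (M : ℕ) (K : ℝ) (L : Ω → Λ) (t : Ω → ℤ) (G₁ : Ω → Γ₁)
    (G₂ : Ω → Γ₂) (D : Λ → 𝒟) (u : Λ → ℤ → ℝ) (x₁ x₂ a : Zt Λ 𝒟 → ℝ) (X₁ X₂ : ℝ) : Prop :=
  ∀ ω₀ ω₁ ω₁' ω₂, 0 < p ω₀ → 0 < p ω₁ → 0 < p ω₁' → 0 < p ω₂ → G₁ ω₀ = G₁ ω₁ →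
    L ω₁ = L ω₁' → G₂ ω₁' = G₂ ω₂ → ∀ τ : ℤ, |τ| ≤ (M : ℤ) → ∀ z : Zt Λ 𝒟,
    z = (τ, (D (L ω₂), (D (L ω₁), L ω₀))) →
    |x₁ z| ≤ X₁ ∧ |x₂ z| ≤ X₂ ∧
      |u (L ω₂) τ - (a z - (x₁ z * t ω₀ + x₂ z * t ω₁') / M)| ≤ K

/-- **Two hops: the constants.** -/
theorem frq_eps (K : ℕ) {h ε η : ℝ} (hh : 0 < h) (hh1 : h ≤ 1) (hε : 0 < ε) (hη : 0 < η)
    (hη1 : η ≤ 1) :
    ∃ δ : ℝ, 0 < δ ∧ ∃ c₀ : ℝ, 0 < c₀ ∧ ∃ Q₀ : ℕ, ∀ Q ≥ Q₀, ∀ M : ℕ, 1 ≤ M → M ≤ 2 ^ Q →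
      ∀ {Ω Λ Γ₁ Γ₂ 𝒞 𝒟 𝒩₁ 𝒩₂ : Type} [Fintype Ω] {p : Ω → ℝ},
      IsLaw p → ∀ {L : Ω → Λ} {t : Ω → ℤ} {G₁ : Ω → Γ₁} {G₂ : Ω → Γ₂} {C : Λ → 𝒞} {D : Λ → 𝒟}
      {N₁ : Λ → 𝒩₁} {N₂ : Λ → 𝒩₂} {u n : Λ → ℤ → ℤ} {x₁ x₂ y₁ y₂ a b : Zt Λ 𝒟 → ℝ},
      Recs p M (δ * Q) L t G₁ G₂ C D N₁ N₂ →
      Dis p M K L t G₁ G₂ D (fun l τ => (u l τ : ℝ)) x₁ x₂ a M M →
      Dis p M K L t G₁ G₂ D (fun l τ => (n l τ : ℝ)) y₁ y₂ b M M →
      (∀ k ≤ Q + 1, ∀ E : Ω → Prop, c₀ ≤ Pb p E →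
        CH (cond p E True) (fun ω => n (L ω) (t ω)) (fun ω => ((n (L ω) (t ω) / 2 ^ k,
          u (L ω) (t ω)), (t ω, (C (L ω), D (L ω))))) ≤ (1 - h) * k * Real.log 2 + δ * Q) →
      Pb (P4 p L G₁ G₂) (fun w => (2 : ℝ) ^ (ε * Q) ≤ frq (x₁ (zt L t D w)) (x₂ (zt L t D w))
        (y₁ (zt L t D w)) (y₂ (zt L t D w))) ≤ η := by
  have hl2 : 0 < Real.log 2 := Real.log_pos (by norm_num)
  -- constants
  obtain ⟨ε₂, hε₂⟩ : ∃ ε₂ : ℝ, ε₂ = ε / 2 := ⟨_, rfl⟩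
  have hε₂0 : 0 < ε₂ := by rw [hε₂]; positivity
  obtain ⟨J, hJ⟩ : ∃ J : ℕ, J = ⌈16 / (h * ε₂)⌉₊ := ⟨_, rfl⟩
  have hJr : 16 / (h * ε₂) ≤ J := by rw [hJ]; exact Nat.le_ceil _
  have hJ0 : 0 < J := by
    have : (0 : ℝ) < J := lt_of_lt_of_le (by positivity) hJr
    exact_mod_cast this
  have hJ1 : (1 : ℝ) ≤ J := by exact_mod_cast hJ0
  obtain ⟨R, hR⟩ : ∃ R : ℝ, R = J / η := ⟨_, rfl⟩
  have hR1 : 1 ≤ R := by rw [hR, le_div_iff₀ hη]; linarith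
  have hR0 : 0 < R := by linarith
  obtain ⟨θ, hθ⟩ : ∃ θ : ℝ, θ = h * ε₂ / 64 := ⟨_, rfl⟩
  have hθ0 : 0 < θ := by rw [hθ]; positivity
  obtain ⟨N, hN⟩ : ∃ N : ℕ, R / (1 + h / 2) ^ N ≤ θ := by
    obtain ⟨N, hN⟩ := pow_unbounded_of_one_lt (R / θ) (by linarith : 1 < 1 + h / 2)
    refine ⟨N, ?_⟩
    rw [div_le_iff₀ (by positivity)]
    rw [div_lt_iff₀ hθ0] at hN
    linarith
  obtain ⟨c₀, hc₀⟩ : ∃ c₀ : ℝ, c₀ = θ * (h / 2) / (R * (1 + h / 2)) := ⟨_, rfl⟩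
  have hc₀0 : 0 < c₀ := by rw [hc₀]; positivity
  have hc₀2 : R * c₀ * (1 + h / 2) / (h / 2) ≤ θ := by
    rw [hc₀]
    refine le_of_eq ?_
    have : (h / 2) ≠ 0 := by positivity
    field_simp
  obtain ⟨δ, hδ⟩ : ∃ δ : ℝ, δ = min ε₂ (h * ε₂ / 16 * Real.log 2 / (2 + 6 * R)) := ⟨_, rfl⟩
  have hδ0 : 0 < δ := by rw [hδ]; exact lt_min hε₂0 (by positivity)
  have hδ2 : (2 + 6 * R) * δ ≤ h * ε₂ / 16 * Real.log 2 := by
    have g : δ ≤ h * ε₂ / 16 * Real.log 2 / (2 + 6 * R) := by rw [hδ]; exact min_le_right _ _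
    rw [le_div_iff₀ (by positivity)] at g
    linarith
  obtain ⟨c₁, hc₁⟩ : ∃ c₁ : ℝ, c₁ = |Real.log (N + 1)| + |Real.log (cst K)| := ⟨_, rfl⟩
  have hc₁0 : 0 ≤ c₁ := by rw [hc₁]; positivity
  refine ⟨δ, hδ0, c₀, hc₀0, ⌈(16 * c₁ / (h * ε₂ * Real.log 2) + 8 / (h * ε₂) + 2 / ε₂ + 4)⌉₊, ?_⟩
  intro Q hQ M hM hMQ Ω Λ Γ₁ Γ₂ 𝒞 𝒟 𝒩₁ 𝒩₂ _ p hp L t G₁ G₂ C D N₁ N₂ u n x₁ x₂ y₁ y₂ a b hrec
    hdu hdn hnf
  have hQr : 16 * c₁ / (h * ε₂ * Real.log 2) + 8 / (h * ε₂) + 2 / ε₂ + 4 ≤ Q :=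
    (Nat.le_ceil _).trans (by exact_mod_cast hQ)
  have q1 : 0 ≤ 16 * c₁ / (h * ε₂ * Real.log 2) := by positivity
  have q2 : 0 ≤ 8 / (h * ε₂) := by positivity
  have q3 : 0 ≤ 2 / ε₂ := by positivity
  have Q1 : 16 * c₁ / (h * ε₂ * Real.log 2) ≤ Q := by linarith
  have Q2 : 8 / (h * ε₂) ≤ Q := by linarith
  have Q3 : 2 / ε₂ ≤ Q := by linarith
  have Q7 : (4 : ℝ) ≤ Q := by linarith
  rw [div_le_iff₀ (by positivity)] at Q1 Q2 Q3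
  have hQ0 : (0 : ℝ) < Q := by linarith
  have hMr : (1 : ℝ) ≤ M := by exact_mod_cast hM
  have hM0 : (0 : ℝ) < M := by linarith
  have hMQr : (M : ℝ) ≤ 2 ^ Q := by exact_mod_cast hMQ
  -- the cells
  obtain ⟨k₀, hk₀⟩ : ∃ k₀ : ℕ, k₀ = ⌈ε₂ * Q⌉₊ := ⟨_, rfl⟩
  have hk1 : ε₂ * Q ≤ k₀ := by rw [hk₀]; exact Nat.le_ceil _
  have hk2 : (k₀ : ℝ) ≤ ε₂ * Q + 1 := by
    rw [hk₀]
    exact (Nat.ceil_lt_add_one (by positivity)).le
  have hk3 : (2 : ℝ) ^ k₀ ≤ (2 : ℝ) ^ (ε * Q) := by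
    rw [← Real.rpow_natCast]
    refine Real.rpow_le_rpow_of_exponent_le (by norm_num) (hk2.trans ?_)
    have : ε = ε₂ + ε₂ := by rw [hε₂]; ring
    rw [this, add_mul]
    linarith
  obtain ⟨s, hs⟩ : ∃ s : ℕ, s = ⌊h * k₀ / 4⌋₊ := ⟨_, rfl⟩
  have hs1 : (s : ℝ) ≤ h * k₀ / 4 := by rw [hs]; exact Nat.floor_le (by positivity)
  have hs2 : h * ε₂ * Q / 8 ≤ s := by
    have g1 : h * k₀ / 4 < s + 1 := by rw [hs]; exact Nat.lt_floor_add_one _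
    have g2 : h * (ε₂ * Q) ≤ h * k₀ := mul_le_mul_of_nonneg_left hk1 hh.le
    have g3 : 8 ≤ h * ε₂ * Q := by linarith
    linarith
  have hJs : Q + 1 ≤ k₀ + J * s := by
    have g1 : (2 : ℝ) * Q ≤ J * s := by
      have g2 : 16 / (h * ε₂) * (h * ε₂ * Q / 8) ≤ J * s :=
        mul_le_mul hJr hs2 (by positivity) (by linarith)
      have g3 : 16 / (h * ε₂) * (h * ε₂ * Q / 8) = 2 * Q := by
        field_simp
        ring
      linarith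
    have g4 : ((Q + 1 : ℕ) : ℝ) ≤ ((k₀ + J * s : ℕ) : ℝ) := by
      push_cast
      have : (0 : ℝ) ≤ k₀ := Nat.cast_nonneg _
      linarith
    exact_mod_cast g4
  obtain ⟨kk, hkk⟩ : ∃ kk : ℕ → ℕ, ∀ j, kk j = min (k₀ + (j + 1) * s) (Q + 1) := ⟨_, fun _ => rfl⟩
  have hkk1 : ∀ j, (kk j : ℝ) ≤ k₀ + (j + 1) * s := fun j => by
    have : kk j ≤ k₀ + (j + 1) * s := by rw [hkk]; exact min_le_left _ _
    exact_mod_cast this
  have hkk2 : ∀ j, kk j ≤ Q + 1 := fun j => by rw [hkk]; exact min_le_right _ _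
  have hδQ : (0 : ℝ) ≤ δ * Q := by positivity
  have key := two_hops hp (K := K) hM L t G₁ G₂ C D N₁ N₂ u n x₁ x₂ y₁ y₂ a b (V := 2 ^ k₀) hR0 hδQ
    hrec.tb hrec.g1 hrec.g2 hrec.nd hrec.full hrec.i1 hrec.i2 (by
      intro ω₀ ω₁ ω₁' ω₂ p0 p1 p1' p2 e1 e2 e3 τ hτ z hz
      obtain ⟨a1, a2, a3⟩ := hdu ω₀ ω₁ ω₁' ω₂ p0 p1 p1' p2 e1 e2 e3 τ hτ z hz
      obtain ⟨b1, b2, b3⟩ := hdn ω₀ ω₁ ω₁' ω₂ p0 p1 p1' p2 e1 e2 e3 τ hτ z hz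
      exact ⟨a1, a2, b1, b2, a3, b3⟩) (J := J) (fun j => (2 : ℝ) ^ (k₀ + j * s))
      (fun j => (1 + h / 2) * ((1 - h) * kk j * Real.log 2 + δ * Q) +
        (R * c₀ * (1 + h / 2) / (h / 2) + R / (1 + h / 2) ^ N) * ((Q + 3) * Real.log 2) +
          Real.log (N + 1)) (fun j => 2 ^ kk j) (fun j _ => one_le_pow₀ (by norm_num))
      (fun x hx1 hx2 => ?_) (fun j _ q hq hqd => ?_) (fun j _ => ?_)
  · refine (Pb_imp (P4_law hp L G₁ G₂).nonneg fun w _ hw => ?_).trans (key.trans (le_of_eq ?_))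
    · exact hk3.trans hw
    · rw [hR]
      field_simp
  · obtain ⟨j, hj, hj1, hj2⟩ := cells_cov hJs hJ0 hx1 (hx2.trans (by
      rw [pow_succ]
      linarith))
    refine ⟨j, hj, hj1, hj2.trans (le_of_eq ?_)⟩
    rw [← hkk]
    push_cast
    rfl
  · have hcast2 : (fun ω => ((n (L ω) (t ω) / (((2 ^ kk j : ℕ) : ℤ)), u (L ω) (t ω)),
        (t ω, (C (L ω), D (L ω))))) = (fun ω => ((n (L ω) (t ω) / 2 ^ kk j, u (L ω) (t ω)),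
        (t ω, (C (L ω), D (L ω))))) := by
      funext ω
      push_cast
      rfl
    rw [hcast2]
    refine Pool.NFD.nf_dens hp hq hR1 hqd hc₀0 (by positivity : 0 < h / 2)
      (fun ω => n (L ω) (t ω)) (fun ω => ((n (L ω) (t ω) / 2 ^ kk j, u (L ω) (t ω)),
        (t ω, (C (L ω), D (L ω))))) (L := N) ?_ ?_ (fun A hA => hnf (kk j) (hkk2 j) A hA) ?_
    · have : 0 ≤ (1 - h) * kk j * Real.log 2 := by
        have : 0 ≤ 1 - h := by linarith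
        positivity
      linarith
    · positivity
    · intro r hr _
      refine (CH_quot hr (fun ω => n (L ω) (t ω)) _ (k := kk j) fun ω ω' _ _ hz => ?_).trans ?_
      · have := (Prod.ext_iff.mp (Prod.ext_iff.mp hz).1).1
        exact this
      · refine mul_le_mul_of_nonneg_right ?_ hl2.le
        have : (kk j : ℝ) ≤ Q + 1 := by exact_mod_cast hkk2 j
        linarith
  · rw [Real.log_pow]
    have g1 : (1 + h / 2) * ((1 - h) * kk j * Real.log 2) ≤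
        (1 - h / 2) * (k₀ + (j + 1) * s) * Real.log 2 := by
      have e1 : (1 + h / 2) * ((1 - h) * kk j * Real.log 2) =
          ((1 + h / 2) * (1 - h) * kk j) * Real.log 2 := by ring
      rw [e1]
      refine mul_le_mul_of_nonneg_right ?_ hl2.le
      have e2 : (1 + h / 2) * (1 - h) ≤ 1 - h / 2 := by nlinarith
      have hkn : (0 : ℝ) ≤ kk j := Nat.cast_nonneg _
      exact (mul_le_mul_of_nonneg_right e2 hkn).trans
        (mul_le_mul_of_nonneg_left (hkk1 j) (by linarith))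
    have g2 : (R * c₀ * (1 + h / 2) / (h / 2) + R / (1 + h / 2) ^ N) * ((Q + 3) * Real.log 2) ≤
        h * ε₂ / 16 * Q * Real.log 2 := by
      have e1 : R * c₀ * (1 + h / 2) / (h / 2) + R / (1 + h / 2) ^ N ≤ 2 * θ := by linarith
      have e2 : ((Q : ℝ) + 3) * Real.log 2 ≤ 2 * Q * Real.log 2 :=
        mul_le_mul_of_nonneg_right (by linarith) hl2.le
      refine (mul_le_mul e1 e2 (by positivity) (by positivity)).trans (le_of_eq ?_)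
      rw [hθ]
      ring
    have g3 : (1 + h / 2) * (δ * Q) + 6 * R * (δ * Q) ≤ h * ε₂ / 16 * Real.log 2 * Q := by
      have e1 : (1 + h / 2) * (δ * Q) + 6 * R * (δ * Q) ≤ (2 + 6 * R) * δ * Q := by
        have : (1 + h / 2) * (δ * Q) ≤ 2 * (δ * Q) :=
          mul_le_mul_of_nonneg_right (by linarith) (by positivity)
        linarith
      exact e1.trans (mul_le_mul_of_nonneg_right hδ2 hQ0.le)
    have g4 : Real.log (N + 1) + Real.log (cst K) ≤ h * ε₂ / 16 * Q * Real.log 2 := by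
      have e1 : Real.log (N + 1) + Real.log (cst K) ≤ c₁ := by
        rw [hc₁]
        exact add_le_add (le_abs_self _) (le_abs_self _)
      linarith
    have g5 : (s : ℝ) * Real.log 2 ≤ h * k₀ / 4 * Real.log 2 :=
      mul_le_mul_of_nonneg_right hs1 hl2.le
    have g6 : h * (ε₂ * Q) * Real.log 2 ≤ h * k₀ * Real.log 2 :=
      mul_le_mul_of_nonneg_right (mul_le_mul_of_nonneg_left hk1 hh.le) hl2.le
    have g7 : 0 < h * (ε₂ * Q) * Real.log 2 := by positivity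
    have g8 : 0 ≤ h / 2 * (j * s) * Real.log 2 := by positivity
    have g9 : 0 ≤ h / 2 * s * Real.log 2 := by positivity
    push_cast
    have e3 : (1 - h / 2) * (k₀ + ((j : ℝ) + 1) * s) * Real.log 2 =
        (k₀ + j * s) * Real.log 2 + s * Real.log 2 - h / 2 * k₀ * Real.log 2 -
          h / 2 * (j * s) * Real.log 2 - h / 2 * s * Real.log 2 := by ring
    rw [e3] at g1
    have e4 : (1 + h / 2) * ((1 - h) * kk j * Real.log 2 + δ * Q) =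
      (1 + h / 2) * ((1 - h) * kk j * Real.log 2) + (1 + h / 2) * (δ * Q) := by ring
    rw [e4]
    linarith

end Pool.TR13
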