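import Pool.Agent.H13.TR2.Alg

/-!
# Two radii

Two hops of parallel copies, the first one over a record of the radius `q₂` (fine), the second one
over a record of the radius `q₁` (coarse). The fast height `U` moves by at most `2 ^ (-q₂)`,
`2 ^ (-q₁)`; the slow height `N` moves by the difference of the velocities `dn`.

`two_radii`: if `N` to `θ A` digits is nonfull given `U` to `A` digits, `q₁ ≤ A ≤ q₂ + X`, and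
`(1 + θ) X ≤ (1 - θ) (q₂ - q₁)`, then the lines split into two parts: on the first one the copies over
the fine record have the same velocity up to `θ (q₂ + X)` digits, on the second one the copies over
the coarse record have the same velocity up to `θ (q₁ + X)` digits.

`u_still`: where the velocity of `N` does not change, the height `U` does not move, if it is nonfull
given `N`.
-/

set_option autoImplicit false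

namespace Pool.TR13

open Finset Real
open Pool.Agent.H49.Ent Pool.Agent.H32.Dense Pool.STK Pool.OWN68 Pool.PR46
open Pool.BFL (Pb)

/-- The displacement of a hop by the velocities. -/
def Dsp {Ω Λ Γ 𝒟 : Type} (p : Ω → ℝ) (M : ℕ) (K e : ℝ) (L : Ω → Λ) (t : Ω → ℤ)
    (G : Ω → Γ) (D : Λ → 𝒟) (N : Λ → ℤ → ℝ) (dn : 𝒟 → ℝ) : Prop :=
  ∀ ω ω', 0 < p ω → 0 < p ω' → G ω = G ω' → |dn (D (L ω')) - dn (D (L ω))| ≤ K ∧
    ∀ τ : ℤ, |τ| ≤ (M : ℤ) → |(N (L ω') τ - N (L ω) τ) -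
      (dn (D (L ω')) - dn (D (L ω))) * (((τ : ℝ) - t ω) / M)| ≤ e

/-- The row: `N` to `B` digits is nonfull given `U` to `A` digits. -/
def Row {Ω Λ 𝒞 𝒟 : Type} [Fintype Ω] (p : Ω → ℝ) (Q : ℕ) (A B h c₀ d : ℝ) (L : Ω → Λ)
    (t : Ω → ℤ) (C : Λ → 𝒞) (D : Λ → 𝒟) (U N : Λ → ℤ → ℝ) : Prop :=
  ∀ k ≤ Q + 1, ∀ E : Ω → Prop, c₀ ≤ Pb p E →
    CH (cond p E True) (fun ω => ⌊(2 : ℝ) ^ B * N (L ω) (t ω)⌋)
      (fun ω => ((⌊(2 : ℝ) ^ B * N (L ω) (t ω)⌋ / 2 ^ k, ⌊(2 : ℝ) ^ A * U (L ω) (t ω)⌋),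
        (t ω, (C (L ω), D (L ω))))) ≤ (1 - h) * k * Real.log 2 + d

theorem pow_pos2 (x : ℝ) : (0 : ℝ) < 2 ^ x := Real.rpow_pos_of_pos (by norm_num) x

theorem pow_mono2 {x y : ℝ} (h : x ≤ y) : (2 : ℝ) ^ x ≤ 2 ^ y :=
  Real.rpow_le_rpow_of_exponent_le (by norm_num) h

/-- Rounding. -/
theorem flr {A x y e K : ℝ} (h : |x - y| ≤ e) (he : 2 ^ A * e ≤ K) :
    |((⌊(2 : ℝ) ^ A * x⌋ : ℤ) : ℝ) - 2 ^ A * y| ≤ K + 1 := by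
  have h1 := Int.floor_le ((2 : ℝ) ^ A * x)
  have h2 := Int.lt_floor_add_one ((2 : ℝ) ^ A * x)
  have h3 : |(2 : ℝ) ^ A * x - 2 ^ A * y| ≤ K := by
    rw [← mul_sub, abs_two_mul]
    exact (mul_le_mul_of_nonneg_left h (pow_pos2 A).le).trans he
  obtain ⟨h4, h5⟩ := abs_le.mp h3
  rw [abs_le]
  constructor <;> linarith

/-- The displacement of the rounded height. -/
theorem Dis.scale {Ω Λ Γ₁ Γ₂ 𝒟 : Type} {p : Ω → ℝ} {M : ℕ} {e K : ℝ} {L : Ω → Λ}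
    {t : Ω → ℤ} {G₁ : Ω → Γ₁} {G₂ : Ω → Γ₂} {D : Λ → 𝒟} {U : Λ → ℤ → ℝ}
    {x₁ x₂ a : Zt Λ 𝒟 → ℝ} {X₁ X₂ : ℝ} (h : Dis p M e L t G₁ G₂ D U x₁ x₂ a X₁ X₂) {A : ℝ}
    (he : 2 ^ A * e ≤ K) (h1 : 2 ^ A * X₁ ≤ M) (h2 : 2 ^ A * X₂ ≤ M) :
    Dis p M (K + 1) L t G₁ G₂ D (fun l τ => ((⌊(2 : ℝ) ^ A * U l τ⌋ : ℤ) : ℝ))
      (fun z => 2 ^ A * x₁ z) (fun z => 2 ^ A * x₂ z) (fun z => 2 ^ A * a z) M M := by
  intro ω₀ ω₁ ω₁' ω₂ p0 p1 p1' p2 e1 e2 e3 τ hτ z hz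
  obtain ⟨a1, a2, a3⟩ := h ω₀ ω₁ ω₁' ω₂ p0 p1 p1' p2 e1 e2 e3 τ hτ z hz
  refine ⟨?_, ?_, ?_⟩
  · show |(2 : ℝ) ^ A * x₁ z| ≤ M
    rw [abs_two_mul]
    exact (mul_le_mul_of_nonneg_left a1 (pow_pos2 A).le).trans h1
  · show |(2 : ℝ) ^ A * x₂ z| ≤ M
    rw [abs_two_mul]
    exact (mul_le_mul_of_nonneg_left a2 (pow_pos2 A).le).trans h2
  · have g := flr a3 he
    refine le_trans (le_of_eq ?_) g
    show |((⌊(2 : ℝ) ^ A * U (L ω₂) τ⌋ : ℤ) : ℝ) - (2 ^ A * a z - (2 ^ A * x₁ z * t ω₀ +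
      2 ^ A * x₂ z * t ω₁') / M)| = _
    congr 2
    ring

/-- The displacement of two hops by the velocities. -/
theorem Dsp.dis {Ω Λ Γ₁ Γ₂ 𝒟 : Type} {p : Ω → ℝ} {M : ℕ} {K e : ℝ} {L : Ω → Λ}
    {t : Ω → ℤ} {G₁ : Ω → Γ₁} {G₂ : Ω → Γ₂} {D : Λ → 𝒟} {N : Λ → ℤ → ℝ} {dn : 𝒟 → ℝ}
    (h₁ : Dsp p M K e L t G₁ D N dn) (h₂ : Dsp p M K e L t G₂ D N dn) :
    Dis p M (2 * e) L t G₁ G₂ D N (fun z => dn z.2.2.1 - dn (D z.2.2.2))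
      (fun z => dn z.2.1 - dn z.2.2.1) (fun z => N z.2.2.2 z.1 +
        ((dn z.2.2.1 - dn (D z.2.2.2)) * z.1 + (dn z.2.1 - dn z.2.2.1) * z.1) / M) K K := by
  intro ω₀ ω₁ ω₁' ω₂ p0 p1 p1' p2 e1 e2 e3 τ hτ z hz
  subst hz
  obtain ⟨b1, b2⟩ := h₁ ω₀ ω₁ p0 p1 e1
  obtain ⟨c1, c2⟩ := h₂ ω₁' ω₂ p1' p2 e3
  have b3 := b2 τ hτ
  have c3 := c2 τ hτ
  rw [← e2] at c1 c3
  refine ⟨b1, c1, ?_⟩
  show |N (L ω₂) τ - ((N (L ω₀) τ + ((dn (D (L ω₁)) - dn (D (L ω₀))) * τ +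
    (dn (D (L ω₂)) - dn (D (L ω₁))) * τ) / M) - ((dn (D (L ω₁)) - dn (D (L ω₀))) * t ω₀ +
    (dn (D (L ω₂)) - dn (D (L ω₁))) * t ω₁') / M)| ≤ 2 * e
  have e : N (L ω₂) τ - ((N (L ω₀) τ + ((dn (D (L ω₁)) - dn (D (L ω₀))) * τ +
    (dn (D (L ω₂)) - dn (D (L ω₁))) * τ) / M) - ((dn (D (L ω₁)) - dn (D (L ω₀))) * t ω₀ +
    (dn (D (L ω₂)) - dn (D (L ω₁))) * t ω₁') / M) =
    ((N (L ω₁) τ - N (L ω₀) τ) -
      (dn (D (L ω₁)) - dn (D (L ω₀))) * (((τ : ℝ) - t ω₀) / M)) +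
    ((N (L ω₂) τ - N (L ω₁) τ) -
      (dn (D (L ω₂)) - dn (D (L ω₁))) * (((τ : ℝ) - t ω₁') / M)) := by ring
  rw [e]
  refine (abs_add_le _ _).trans ?_
  linarith

/-- **Two radii.** -/
theorem two_radii (K : ℕ) {h ε s : ℝ} (hh : 0 < h) (hh1 : h ≤ 1) (hε : 0 < ε) (hs : 0 < s)
    (hs1 : s ≤ 1) :
    ∃ δ : ℝ, 0 < δ ∧ ∃ c₀ : ℝ, 0 < c₀ ∧ ∃ Q₀ : ℕ, ∀ Q ≥ Q₀, ∀ M : ℕ, M ≤ 2 ^ Q →
      ∀ {θ q₁ q₂ X : ℝ}, 0 < θ → θ < 1 → 0 ≤ q₁ → 0 ≤ X → (1 + θ) * X ≤ (1 - θ) * (q₂ - q₁) →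
      (2 : ℝ) ^ (q₂ + X) ≤ M → (2 : ℝ) ^ (θ * (q₂ + X)) * K ≤ M →
      ∀ {Ω Λ Γ₁ Γ₂ 𝒞 𝒟 𝒩₁ 𝒩₂ : Type} [Fintype Ω] {p : Ω → ℝ},
      IsLaw p → ∀ {L : Ω → Λ} {t : Ω → ℤ} {Gf : Ω → Γ₁} {Gc : Ω → Γ₂} {C : Λ → 𝒞} {D : Λ → 𝒟}
      {N₁ : Λ → 𝒩₁} {N₂ : Λ → 𝒩₂} {U N : Λ → ℤ → ℝ} {a₁ a₂ α : Zt Λ 𝒟 → ℝ} {dn : 𝒟 → ℝ},
      Recs p M (δ * Q) L t Gf Gc C D N₁ N₂ →
      Dis p M (K * 2 ^ (-(q₂ + X))) L t Gf Gc D U a₁ a₂ α (2 ^ (-q₂)) (2 ^ (-q₁)) →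
      Dsp p M K (K * 2 ^ (-(θ * (q₂ + X)))) L t Gf D N dn →
      Dsp p M K (K * 2 ^ (-(θ * (q₂ + X)))) L t Gc D N dn →
      (∀ A, q₁ ≤ A → A ≤ q₂ + X → Row p Q A (θ * A) h c₀ (δ * Q) L t C D U N) →
      ∃ S : Λ → Prop,
        Pb (P1 p Gf) (fun w => S (L w.2) ∧ 2 * 2 ^ (ε * Q) ≤
          2 ^ (θ * (q₂ + X)) * |dn (D (L w.2)) - dn (D (L w.1))|) ≤ s ∧
        Pb (P1 p Gc) (fun w => ¬ S (L w.2) ∧ 2 * 2 ^ (ε * Q) ≤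
          2 ^ (θ * (q₁ + X)) * |dn (D (L w.2)) - dn (D (L w.1))|) ≤ s := by
  obtain ⟨δ, hδ, c₀, hc₀, Q₀, H⟩ := frq_eps (2 * K + 1) hh hh1 hε (η := s ^ 2 / 3)
    (by positivity) (by
      have : s ^ 2 ≤ 1 := pow_le_one₀ hs.le hs1
      linarith)
  refine ⟨δ, hδ, c₀, hc₀, Q₀, ?_⟩
  intro Q hQ M hMQ θ q₁ q₂ X hθ0 hθ1 hq₁ hX hκ hM2 hMK Ω Λ Γ₁ Γ₂ 𝒞 𝒟 𝒩₁ 𝒩₂ _ p hp L t Gf Gc C D
    N₁ N₂ U N a₁ a₂ α dn hrec hU hNf hNc hrow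
  have hq : q₁ + X ≤ q₂ := by nlinarith
  have hM1r : (1 : ℝ) ≤ M := by
    refine le_trans ?_ hM2
    have := pow_mono2 (x := 0) (y := q₂ + X) (by linarith)
    rwa [Real.rpow_zero] at this
  have hM1 : 1 ≤ M := by exact_mod_cast hM1r
  have hK0 : (0 : ℝ) ≤ K := Nat.cast_nonneg K
  have hV : (1 : ℝ) ≤ 2 ^ (ε * Q) := Real.one_le_rpow (by norm_num) (by positivity)
  have hP4 := P4_law hp L Gf Gc
  -- one scale
  have key : ∀ A, q₁ ≤ A → A ≤ q₂ + X → Pb (P4 p L Gf Gc) (fun w => (2 : ℝ) ^ (ε * Q) ≤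
      frq (2 ^ A * a₁ (zt L t D w)) (2 ^ A * a₂ (zt L t D w))
        (2 ^ (θ * A) * (dn (zt L t D w).2.2.1 - dn (D (zt L t D w).2.2.2)))
        (2 ^ (θ * A) * (dn (zt L t D w).2.1 - dn (zt L t D w).2.2.1))) ≤ s ^ 2 / 3 := by
    intro A hA1 hA2
    have hB : θ * A ≤ θ * (q₂ + X) := mul_le_mul_of_nonneg_left hA2 hθ0.le
    have du := hU.scale (A := A) (K := 2 * K) (by
        have g1 : (2 : ℝ) ^ A * (K * 2 ^ (-(q₂ + X))) = K * 2 ^ (A - (q₂ + X)) := by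
          rw [sub_eq_add_neg, Real.rpow_add (by norm_num)]
          ring
        rw [g1]
        have g2 := pow_mono2 (x := A - (q₂ + X)) (y := 0) (by linarith)
        rw [Real.rpow_zero] at g2
        have g3 := mul_le_mul_of_nonneg_left g2 hK0
        linarith) (by
        rw [← Real.rpow_add (by norm_num)]
        exact (pow_mono2 (by linarith)).trans hM2) (by
        rw [← Real.rpow_add (by norm_num)]
        exact (pow_mono2 (by linarith)).trans hM2)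
    have dnn := (hNf.dis hNc).scale (A := θ * A) (K := 2 * K) (by
        have g1 : (2 : ℝ) ^ (θ * A) * (2 * (K * 2 ^ (-(θ * (q₂ + X))))) =
            2 * K * 2 ^ (θ * A - θ * (q₂ + X)) := by
          rw [sub_eq_add_neg, Real.rpow_add (by norm_num)]
          ring
        rw [g1]
        have g2 := pow_mono2 (x := θ * A - θ * (q₂ + X)) (y := 0) (by linarith)
        rw [Real.rpow_zero] at g2
        have g3 := mul_le_mul_of_nonneg_left g2 (by positivity : (0 : ℝ) ≤ 2 * K)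
        linarith) (by
        refine le_trans ?_ hMK
        exact mul_le_mul_of_nonneg_right (pow_mono2 hB) hK0) (by
        refine le_trans ?_ hMK
        exact mul_le_mul_of_nonneg_right (pow_mono2 hB) hK0)
    have e : ((2 * K + 1 : ℕ) : ℝ) = 2 * K + 1 := by push_cast; ring
    refine H Q hQ M hM1 hMQ hp (u := fun l τ => ⌊(2 : ℝ) ^ A * U l τ⌋)
      (n := fun l τ => ⌊(2 : ℝ) ^ (θ * A) * N l τ⌋) hrec (a := fun z => 2 ^ A * α z)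
      (by rw [e]; exact du) (by rw [e]; exact dnn) ?_
    intro k hk E hE
    exact hrow A hA1 hA2 k hk E hE
  -- the three scales
  have k1 := key q₁ le_rfl (by linarith)
  have k2 := key (q₁ + X) (by linarith) (by linarith)
  have k3 := key (q₂ + X) (by linarith) le_rfl
  obtain ⟨E, hE⟩ : ∃ E : Ω × Ω → Prop, E = fun w => 2 * (2 : ℝ) ^ (ε * Q) ≤
    2 ^ (θ * (q₂ + X)) * |dn (D (L w.2)) - dn (D (L w.1))| := ⟨_, rfl⟩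
  obtain ⟨F, hF⟩ : ∃ F : Ω × Ω → Prop, F = fun w => 2 * (2 : ℝ) ^ (ε * Q) ≤
    2 ^ (θ * (q₁ + X)) * |dn (D (L w.2)) - dn (D (L w.1))| := ⟨_, rfl⟩
  have hEF : Pb (P3 p L Gf Gc) (fun w => E w.1.1 ∧ F (w.1.2, w.2)) ≤ s ^ 2 := by
    rw [← Pb_marg (P4_f hp L Gf Gc) (fun w => E w.1.1 ∧ F (w.1.2, w.2))]
    have g1 := Pb_imp2 hP4.nonneg (E := fun w => E w.1.1.1 ∧ F (w.1.1.2, w.1.2))
      (F := fun w => (2 : ℝ) ^ (ε * Q) ≤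
      frq (2 ^ q₁ * a₁ (zt L t D w)) (2 ^ q₁ * a₂ (zt L t D w))
        (2 ^ (θ * q₁) * (dn (zt L t D w).2.2.1 - dn (D (zt L t D w).2.2.2)))
        (2 ^ (θ * q₁) * (dn (zt L t D w).2.1 - dn (zt L t D w).2.2.1)))
      (H := fun w => (2 : ℝ) ^ (ε * Q) ≤
      frq (2 ^ (q₁ + X) * a₁ (zt L t D w)) (2 ^ (q₁ + X) * a₂ (zt L t D w))
        (2 ^ (θ * (q₁ + X)) * (dn (zt L t D w).2.2.1 - dn (D (zt L t D w).2.2.2)))
        (2 ^ (θ * (q₁ + X)) * (dn (zt L t D w).2.1 - dn (zt L t D w).2.2.1)) ∨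
        (2 : ℝ) ^ (ε * Q) ≤
      frq (2 ^ (q₂ + X) * a₁ (zt L t D w)) (2 ^ (q₂ + X) * a₂ (zt L t D w))
        (2 ^ (θ * (q₂ + X)) * (dn (zt L t D w).2.2.1 - dn (D (zt L t D w).2.2.2)))
        (2 ^ (θ * (q₂ + X)) * (dn (zt L t D w).2.1 - dn (zt L t D w).2.2.1))) ?_
    · have g2 := Pb_imp2 hP4.nonneg (E := fun w => (2 : ℝ) ^ (ε * Q) ≤
        frq (2 ^ (q₁ + X) * a₁ (zt L t D w)) (2 ^ (q₁ + X) * a₂ (zt L t D w))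
          (2 ^ (θ * (q₁ + X)) * (dn (zt L t D w).2.2.1 - dn (D (zt L t D w).2.2.2)))
          (2 ^ (θ * (q₁ + X)) * (dn (zt L t D w).2.1 - dn (zt L t D w).2.2.1)) ∨
          (2 : ℝ) ^ (ε * Q) ≤
        frq (2 ^ (q₂ + X) * a₁ (zt L t D w)) (2 ^ (q₂ + X) * a₂ (zt L t D w))
          (2 ^ (θ * (q₂ + X)) * (dn (zt L t D w).2.2.1 - dn (D (zt L t D w).2.2.2)))
          (2 ^ (θ * (q₂ + X)) * (dn (zt L t D w).2.1 - dn (zt L t D w).2.2.1)))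
          (fun w _ hw => hw)
      refine g1.trans ((add_le_add k1 (g2.trans (add_le_add k2 k3))).trans (le_of_eq ?_))
      ring
    · intro w hw hbad
      by_contra hcon
      push Not at hcon
      obtain ⟨f1, f2, f3⟩ := hcon
      obtain ⟨q1, w2, w3⟩ := P4_pos hp L Gf Gc hw
      obtain ⟨b1, b2, b3, b4, b5, b6, b7⟩ := P3_sup hp L Gf Gc q1
      obtain ⟨u1, u2, -⟩ := hU _ _ _ _ b1 b2 b3 b4 b5 b6 b7 (t w.2) (hrec.tb _ w2)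
        (zt L t D w) rfl
      have hE' : 2 * (2 : ℝ) ^ (ε * Q) ≤ 2 ^ (θ * (q₂ + X)) *
          |dn (D (L w.1.1.1.2)) - dn (D (L w.1.1.1.1))| := by
        have := hbad.1
        rw [hE] at this
        exact this
      have hF' : 2 * (2 : ℝ) ^ (ε * Q) ≤ 2 ^ (θ * (q₁ + X)) *
          |dn (D (L w.1.2)) - dn (D (L w.1.1.1.2))| := by
        have := hbad.2
        rw [hF] at this
        rw [b6]
        exact this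
      have := alg3 hV hX hκ hq u1 u2 f1 f2 f3 hF'
      exact absurd hE' (not_le.mpr this)
  obtain ⟨S, hS1, hS2⟩ := P3_split hp L Gf Gc E F hs hEF
  refine ⟨S, ?_, ?_⟩
  · rw [hE] at hS1
    exact hS1
  · rw [hF] at hS2
    refine le_trans (le_of_eq ?_) hS2
    refine (Pb_sym Gc _).trans ?_
    unfold P1
    congr 1
    funext w
    show (¬ S (L w.1) ∧ _ ≤ _ * |dn (D (L w.1)) - dn (D (L w.2))|) = _
    rw [abs_sub_comm]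

/-- **Where the velocity of the slow height does not change, the fast height does not move.** -/
theorem u_still (K : ℕ) {h ε η : ℝ} (hh : 0 < h) (hh1 : h ≤ 1) (hε : 0 < ε) (hη : 0 < η)
    (hη1 : η ≤ 1) :
    ∃ δ : ℝ, 0 < δ ∧ ∃ c₀ : ℝ, 0 < c₀ ∧ ∃ Q₀ : ℕ, ∀ Q ≥ Q₀, ∀ M : ℕ, M ≤ 2 ^ Q →
      ∀ {A B a₀ : ℝ}, 0 ≤ A → (2 : ℝ) ^ A * a₀ ≤ M → (2 : ℝ) ^ A ≤ M → (2 : ℝ) ^ B * K ≤ M →
      ∀ {Ω Λ Γ 𝒞 𝒟 𝒩 : Type} [Fintype Ω] {p : Ω → ℝ},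
      IsLaw p → ∀ {L : Ω → Λ} {t : Ω → ℤ} {G : Ω → Γ} {C : Λ → 𝒞} {D : Λ → 𝒟}
      {N₀ : Λ → 𝒩} {U N : Λ → ℤ → ℝ} {a : 𝒟 → Λ → ℝ} {a₂ α : Zt Λ 𝒟 → ℝ} {dn : 𝒟 → ℝ},
      Recs p M (δ * Q) L t G G C D N₀ N₀ →
      Dis p M (K * 2 ^ (-A)) L t G G D U (fun z => a z.2.2.1 z.2.2.2) a₂ α a₀ a₀ →
      Dsp p M K (K * 2 ^ (-B)) L t G D N dn →
      Row p Q B A h c₀ (δ * Q) L t C D N U →
      ∀ (S : Λ → Prop) {s : ℝ}, Pb (P1 p G) (fun w => S (L w.2) ∧ 2 * 2 ^ (ε * Q) ≤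
          2 ^ B * |dn (D (L w.2)) - dn (D (L w.1))|) ≤ s →
        Pb (P1 p G) (fun w => S (L w.2) ∧ 2 * (2 ^ (ε * Q)) ^ 2 ≤
          2 ^ A * |a (D (L w.2)) (L w.1)|) ≤ η + 2 * s := by
  obtain ⟨δ, hδ, c₀, hc₀, Q₀, H⟩ := frq_eps (2 * K + 1) hh hh1 hε hη hη1
  refine ⟨δ, hδ, c₀, hc₀, Q₀, ?_⟩
  intro Q hQ M hMQ A B a₀ hA0 hMa hMA hMK Ω Λ Γ 𝒞 𝒟 𝒩 _ p hp L t G C D N₀ U N a a₂ α dn hrec hU hN
    hrow S s hS
  have hM1r : (1 : ℝ) ≤ M := by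
    refine le_trans ?_ hMA
    have := pow_mono2 (x := 0) (y := A) hA0
    rwa [Real.rpow_zero] at this
  have hM1 : 1 ≤ M := by exact_mod_cast hM1r
  have hK0 : (0 : ℝ) ≤ K := Nat.cast_nonneg K
  have hV : (1 : ℝ) ≤ 2 ^ (ε * Q) := Real.one_le_rpow (by norm_num) (by positivity)
  have hP4 := P4_law hp L G G
  have du := hU.scale (A := A) (K := 2 * K) (by
      have g1 : (2 : ℝ) ^ A * (K * 2 ^ (-A)) = K := by
        rw [Real.rpow_neg (by norm_num)]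
        have := (pow_pos2 A).ne'
        field_simp
      rw [g1]
      linarith) hMa hMa
  have dnn := (hN.dis hN).scale (A := B) (K := 2 * K) (by
      have g1 : (2 : ℝ) ^ B * (2 * (K * 2 ^ (-B))) = 2 * K := by
        rw [Real.rpow_neg (by norm_num)]
        have := (pow_pos2 B).ne'
        field_simp
      rw [g1]) hMK hMK
  have e : ((2 * K + 1 : ℕ) : ℝ) = 2 * K + 1 := by push_cast; ring
  have key := H Q hQ M hM1 hMQ hp (u := fun l τ => ⌊(2 : ℝ) ^ B * N l τ⌋)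
      (n := fun l τ => ⌊(2 : ℝ) ^ A * U l τ⌋) hrec (by rw [e]; exact dnn) (by rw [e]; exact du)
      (fun k hk E hE => hrow k hk E hE)
  -- the pair of the first hop, seen in the chain
  have m1 : Pb (P1 p G) (fun w => S (L w.2) ∧ 2 * ((2 : ℝ) ^ (ε * Q)) ^ 2 ≤
      2 ^ A * |a (D (L w.2)) (L w.1)|) = Pb (P4 p L G G) (fun w => S (L w.1.1.1.2) ∧
        2 * ((2 : ℝ) ^ (ε * Q)) ^ 2 ≤ 2 ^ A * |a (D (L w.1.1.1.2)) (L w.1.1.1.1)|) :=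
    (Pb_marg (P4_pair1 hp L G G) (fun w => S (L w.2) ∧ 2 * ((2 : ℝ) ^ (ε * Q)) ^ 2 ≤
      2 ^ A * |a (D (L w.2)) (L w.1)|)).symm
  have m2 := Pb_marg (P4_pair1 hp L G G) (fun w => S (L w.2) ∧ 2 * 2 ^ (ε * Q) ≤
    2 ^ B * |dn (D (L w.2)) - dn (D (L w.1))|)
  have m3 := Pb_marg (P4_pair hp L G G) (fun w => S (L w.1) ∧ 2 * 2 ^ (ε * Q) ≤
    2 ^ B * |dn (D (L w.2)) - dn (D (L w.1))|)
  have m4 : Pb (glue p p G G) (fun w => S (L w.1) ∧ 2 * 2 ^ (ε * Q) ≤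
      2 ^ B * |dn (D (L w.2)) - dn (D (L w.1))|) ≤ s := by
    refine le_trans (le_of_eq ?_) hS
    refine (Pb_sym G _).trans ?_
    unfold P1
    congr 1
    funext w
    show (S (L w.2) ∧ _ ≤ _ * |dn (D (L w.1)) - dn (D (L w.2))|) = _
    rw [abs_sub_comm]
  rw [m1]
  have g1 := Pb_imp2 hP4.nonneg (E := fun w => S (L w.1.1.1.2) ∧
        2 * ((2 : ℝ) ^ (ε * Q)) ^ 2 ≤ 2 ^ A * |a (D (L w.1.1.1.2)) (L w.1.1.1.1)|)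
    (F := fun w => (2 : ℝ) ^ (ε * Q) ≤ frq
      (2 ^ B * (dn (zt L t D w).2.2.1 - dn (D (zt L t D w).2.2.2)))
      (2 ^ B * (dn (zt L t D w).2.1 - dn (zt L t D w).2.2.1))
      (2 ^ A * a (zt L t D w).2.2.1 (zt L t D w).2.2.2) (2 ^ A * a₂ (zt L t D w)))
    (H := fun w => (S (L w.1.1.1.2) ∧ 2 * 2 ^ (ε * Q) ≤
      2 ^ B * |dn (D (L w.1.1.1.2)) - dn (D (L w.1.1.1.1))|) ∨ (S (L w.1.1.2) ∧
      2 * 2 ^ (ε * Q) ≤ 2 ^ B * |dn (D (L w.1.2)) - dn (D (L w.1.1.2))|)) ?_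
  · have g2 := Pb_imp2 hP4.nonneg (E := fun w => (S (L w.1.1.1.2) ∧ 2 * 2 ^ (ε * Q) ≤
      2 ^ B * |dn (D (L w.1.1.1.2)) - dn (D (L w.1.1.1.1))|) ∨ (S (L w.1.1.2) ∧
      2 * 2 ^ (ε * Q) ≤ 2 ^ B * |dn (D (L w.1.2)) - dn (D (L w.1.1.2))|))
      (fun w _ hw => hw)
    refine g1.trans ((add_le_add key (g2.trans (add_le_add (m2.le.trans hS)
      (m3.le.trans m4)))).trans (le_of_eq ?_))
    ring
  · intro w hw hbad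
    by_contra hcon
    push Not at hcon
    obtain ⟨f1, f2, f3⟩ := hcon
    obtain ⟨q1, w2, w3⟩ := P4_pos hp L G G hw
    obtain ⟨b1, b2, b3, b4, b5, b6, b7⟩ := P3_sup hp L G G q1
    have y1 := f2 hbad.1
    have y2 := f3 (by rw [← b6]; exact hbad.1)
    rw [← b6] at y2
    obtain ⟨-, c1, -⟩ := frq_lt f1
    have c2 : |(2 : ℝ) ^ A * a (D (L w.1.1.1.2)) (L w.1.1.1.1)| < 2 ^ (ε * Q) * max 1 (max
        |(2 : ℝ) ^ B * (dn (D (L w.1.1.1.2)) - dn (D (L w.1.1.1.1)))|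
        |(2 : ℝ) ^ B * (dn (D (L w.1.2)) - dn (D (L w.1.1.1.2)))|) := c1
    rw [abs_two_mul, abs_two_mul, abs_two_mul] at c2
    have c3 : max 1 (max (2 ^ B * |dn (D (L w.1.1.1.2)) - dn (D (L w.1.1.1.1))|)
        (2 ^ B * |dn (D (L w.1.2)) - dn (D (L w.1.1.1.2))|)) ≤ 2 * (2 : ℝ) ^ (ε * Q) :=
      max_le (by linarith) (max_le y1.le y2.le)
    have c4 := mul_le_mul_of_nonneg_left c3 (pow_pos2 (ε * Q)).le
    have c5 := hbad.2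
    nlinarith

end Pool.TR13
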